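import Pool.Agent.W2helper7.FA.Const

/-!
# Twists of even order of hyperelliptic curves: almost all of them have exactly two rational points

Let `f_k ∈ ℤ[X]`, `k ∈ K`, be finitely many pairwise coprime polynomials with nonzero constant terms,
not all of even degree, and let `F_k(u, v)` be their homogenisations. For even `m ≥ 2` and an integer
`d ≠ 0` consider the curve

  `C_{m,d} : y² = x ∏ F_k(x^m, d)`

(of genus `m N / 2`, `N = ∑ deg f_k`, if the `f_k` are separable). For fixed `m` these curves are
the twists of `C_{m,1}` by the group `μ_{2m}` of the automorphisms `(x, y) ↦ (ζ² x, ζ y)`. There is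
one rational point at infinity, and the rational point `(0, 0)`. The map `t = x ^ m / d` makes
`C_{m,d}` a cyclic covering of degree `2 m` of the line; if `N` is odd then the covering
`u² = d t` of degree two between them is a rational curve, and `C_{m,d}` does not cover a quadratic
twist of a fixed hyperelliptic curve.

Suppose that `l f(0)` is not a square for some `f = f_k` of even degree, or that `l f(0) l' g(0)` is
not a square for two of the polynomials of odd degree (`l`, `l'` the leading coefficients). We prove,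
simultaneously for ALL even `m ≥ 2`:

(1) If the `f_k` have together at least four complex roots of odd multiplicity then, for all
squarefree `d` with at most `C X (log X) ^ (-1/5)` exceptions `|d| ≤ X`, and for all integers `d ≠ 0`
outside a set of density zero, `(0, 0)` is the only affine rational point of every one of the curves
`C_{m,d}` (`m ≥ 2` even).

(2) Without the condition on the roots: for all squarefree `d`, `|d| ≤ X`, with at most
`C X (log X) ^ (-1/5)` exceptions, all rational points with `x y ≠ 0` of the curves `C_{m,d}` are of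
constant type: `s = x ^ m / d` is such that all the `l_k s ^ (deg f_k) f_k(s)` are squares (the type
of the point at infinity) or all the `f_k(0) f_k(s)` are squares (the type of `(0, 0)`).

For example let `a_1, …, a_n`, `n ≥ 4`, be distinct nonzero integers whose square classes are not all
equal. Then almost all the curves `y² = x ∏ (x^m - a_i d)`, `m ≥ 2` even, have exactly two rational
points, `(0, 0)` and the point at infinity.

Method: a prime `p ∣ d` divides `x` or not. So `d = κ D₁ D₂`, and all the square classes of the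
`F_k(x^m, d)` are `κ_k` or `κ_k D₁` with bounded `κ_k`. The conditions at the primes `p ∣ D₁` and
`p ∣ D₂` on the symbols `(D₁ / p)`, `(D₂ / p)`, `(κ_k / p)` hold for few pairs `D₁, D₂`: bilinear
sums of Jacobi symbols (project TW of helper262 in the starting library, `ABS1`). This gives (2). A
rational number of constant type is the abscissa of a rational point of one of two multiquadratic
coverings of the line, branched at infinity (or at `0`) and at the roots of odd multiplicity. Each
has finitely many rational points if there are five or more branch points: by a correspondence of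
Bogomolov and Tschinkel (project BT of helper83 and helper6) this follows from Mordell's conjecture
for the curve `s² = t⁶ + 1` over number fields, which is proved in the starting library.
-/

set_option autoImplicit false

namespace Pool.Agent.Results.MP_10e784_ag.HigherOrderTwists

open Finset Filter Polynomial Topology

/-- the homogenisation `F(u, v) = ∑ i, a i * u ^ i * v ^ (n - i)` of `f = ∑ i, a i * X ^ i`,
`n = deg f` -/
noncomputable def hom (f : ℤ[X]) (u v : ℚ) : ℚ :=
  ∑ i ∈ range (f.natDegree + 1), (f.coeff i : ℚ) * u ^ i * v ^ (f.natDegree - i)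

/-- the value `f(s)` -/
noncomputable def val (f : ℤ[X]) (s : ℚ) : ℚ := f.eval₂ (Int.castRingHom ℚ) s

/-- the affine rational points of the curve `y² = x ∏ F_k(x^m, d)` -/
def points {K : Type} [Fintype K] (f : K → ℤ[X]) (m : ℕ) (d : ℤ) : Set (ℚ × ℚ) :=
  {P | P.2 ^ 2 = P.1 * ∏ k, hom (f k) (P.1 ^ m) d}

/-- nonzero constant terms, pairwise coprime -/
def Factors {K : Type} (f : K → ℤ[X]) : Prop :=
  (∀ k, (f k).coeff 0 ≠ 0) ∧
  ∀ k l, k ≠ l → IsCoprime ((f k).map (Int.castRingHom ℚ)) ((f l).map (Int.castRingHom ℚ))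

/-- the condition on the square classes; some degree is odd -/
def General {K : Type} (f : K → ℤ[X]) : Prop :=
  (∃ k, Odd (f k).natDegree) ∧
  ((∃ k, Even (f k).natDegree ∧ ¬ IsSquare ((f k).leadingCoeff * (f k).coeff 0)) ∨
    ∃ i j, Odd (f i).natDegree ∧ Odd (f j).natDegree ∧
      ¬ IsSquare ((f i).leadingCoeff * (f i).coeff 0 * ((f j).leadingCoeff * (f j).coeff 0)))

/-- `s` is of constant type: the type of the point at infinity, or the type of `(0, 0)` -/
def Const {K : Type} (f : K → ℤ[X]) (s : ℚ) : Prop :=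
  (∀ k, IsSquare (((f k).leadingCoeff : ℚ) * s ^ (f k).natDegree * val (f k) s)) ∨
  (∀ k, IsSquare (((f k).coeff 0 : ℚ) * val (f k) s))

/-- the complex numbers which are roots of odd multiplicity of one of the polynomials -/
def oddRoots {K : Type} (f : K → ℤ[X]) : Set ℂ :=
  {z | ∃ k, Odd (((f k).map (Int.castRingHom ℂ)).rootMultiplicity z)}

/-- for some even `m ≥ 2` the curve `y² = x ∏ F_k(x^m, d)` has a rational point `(x, y)`, `x y ≠ 0`,
of nonconstant type -/
def Nonconst {K : Type} [Fintype K] (f : K → ℤ[X]) (d : ℤ) : Prop :=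
  ∃ m : ℕ, Even m ∧ 2 ≤ m ∧ ∃ P ∈ points f m d, P.1 ≠ 0 ∧ P.2 ≠ 0 ∧ ¬ Const f (P.1 ^ m / d)

/-- for all even `m ≥ 2` the point `(0, 0)` is the only affine rational point of the curve
`y² = x ∏ F_k(x^m, d)` -/
def OnePoint {K : Type} [Fintype K] (f : K → ℤ[X]) (d : ℤ) : Prop :=
  ∀ m : ℕ, Even m → 2 ≤ m → points f m d = {(0, 0)}

/-- the number of the `d`, `|d| ≤ X`, with the property `P` is at most `C X (log X) ^ (-1/5)` -/
def Few (P : ℤ → Prop) : Prop :=
  ∃ C : ℝ, ∀ X : ℕ, 3 ≤ X →
    ({d : ℤ | d.natAbs ≤ X ∧ P d}.ncard : ℝ) ≤ C * X * (Real.log X) ^ (-(1 / 5 : ℝ))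

/-- the integers with the property `P` have density zero -/
def DensityZero (P : ℤ → Prop) : Prop :=
  Tendsto (fun X : ℕ => ({d : ℤ | d.natAbs ≤ X ∧ P d}.ncard : ℝ) / X) atTop (𝓝 0)

section

variable {K : Type} [Fintype K]

lemma few_mono {P Q : ℤ → Prop} (h : ∀ d, P d → Q d) (hQ : ∃ C : ℝ, 0 ≤ C ∧ ∀ X : ℕ, 3 ≤ X →
    ({d : ℤ | d.natAbs ≤ X ∧ Q d}.ncard : ℝ) ≤ C * X * (Real.log X) ^ (-(1 / 5 : ℝ))) : Few P := by
  obtain ⟨C, -, H⟩ := hQ
  refine ⟨C, fun X hX => le_trans ?_ (H X hX)⟩
  refine Nat.cast_le.2 (Set.ncard_le_ncard (fun d hd => ⟨hd.1, h d hd.2⟩) ?_)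
  apply (Set.finite_Icc (-(X : ℤ)) X).subset
  intro d hd
  have h1 : d.natAbs ≤ X := hd.1
  rw [Set.mem_Icc]
  omega

lemma badE_of {f : K → ℤ[X]} {d : ℤ} (h : ¬ OnePoint f d) : Pool.Agent.W2helper7.HT.BadE f d := by
  unfold OnePoint at h
  push Not at h
  obtain ⟨m, hm, hm2, hne⟩ := h
  by_contra hcon
  apply hne
  ext ⟨x, y⟩
  rw [Set.mem_singleton_iff, Prod.mk.injEq]
  constructor
  · intro h1
    have h1 : y ^ 2 = x * ∏ k, hom (f k) (x ^ m) d := h1
    by_cases hx : x = 0
    · subst hx
      rw [zero_mul] at h1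
      exact ⟨rfl, pow_eq_zero_iff (two_ne_zero) |>.1 h1⟩
    · exact absurd ⟨m, hm, hm2, x, y, hx, h1⟩ hcon
  · rintro ⟨rfl, rfl⟩
    show (0 : ℚ) ^ 2 = 0 * _
    rw [zero_mul, zero_pow two_ne_zero]

omit [Fintype K] in
lemma adm_of {f : K → ℤ[X]} (h1 : Factors f) (h2 : General f) : Pool.Agent.W2helper7.HT.Adm f :=
  ⟨h1.1, h1.2, h2.1, h2.2⟩

lemma concl {f : K → ℤ[X]} (h : Pool.Agent.W2helper7.HT.Adm f) (hfin : {s : ℚ | s ≠ 0 ∧ Const f s}.Finite) :
    Few (fun d => Squarefree d ∧ ¬ OnePoint f d) ∧ DensityZero (fun d => d ≠ 0 ∧ ¬ OnePoint f d) := by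
  refine ⟨few_mono (fun d hd => ⟨hd.1, badE_of hd.2⟩) (Pool.Agent.W2helper7.HT.mainB f h hfin), ?_⟩
  refine squeeze_zero (fun X => by positivity) (fun X => ?_)
    (Pool.Agent.W2helper7.HT.mainC f h hfin)
  apply div_le_div_of_nonneg_right _ (Nat.cast_nonneg X)
  refine Nat.cast_le.2 (Set.ncard_le_ncard (fun d hd => ⟨hd.1, hd.2.1, badE_of hd.2.2⟩) ?_)
  apply (Set.finite_Icc (-(X : ℤ)) X).subset
  intro d hd
  have h1 : d.natAbs ≤ X := hd.1
  rw [Set.mem_Icc]
  omega

end

theorem result (K : Type) [Fintype K] (f : K → ℤ[X]) (hF : Factors f) (hG : General f) :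
    (4 ≤ (oddRoots f).ncard →
      Few (fun d => Squarefree d ∧ ¬ OnePoint f d) ∧
      DensityZero (fun d => d ≠ 0 ∧ ¬ OnePoint f d)) ∧
    Few (fun d => Squarefree d ∧ Nonconst f d) := by
  classical
  refine ⟨fun h4 => concl (adm_of hF hG) (Pool.Agent.W2helper7.FA.fin_HT hF.1 hG.1 h4), ?_⟩
  refine few_mono (fun d hd => ⟨hd.1, ?_⟩) (Pool.Agent.W2helper7.HT.mainA f (adm_of hF hG))
  obtain ⟨m, hm, hm2, P, hP, hx, hy, hc⟩ := hd.2
  exact ⟨m, hm, hm2, P.1, P.2, ⟨hx, hy, hP⟩, hc⟩

end Pool.Agent.Results.MP_10e784_ag.HigherOrderTwists
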