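import Pool.Agent.W2helper7.FA.TM

/-!
# The rational points on almost all quadratic twists of a hyperelliptic curve

Let `f k ∈ ℤ[x]`, `k ∈ K`, be irreducible over `ℚ`, pairwise non-associated, of even total degree
`2 g + 2 ≥ 6`, at least four of them of odd degree, and let `F k (x, w)` be the homogenisations. We
consider the quadratic twists of a hyperelliptic curve of genus `g ≥ 2`,

  `C d : d y² = ∏ k, F k (x, w)`, `d` squarefree.

Every linear `f k` gives a rational Weierstrass point of all the `C d`. (A rational Weierstrass point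
at infinity is moved to a finite one by a projective transformation.) We assume a condition on the
linear factors which excludes certain coincidences of square classes; it is empty if there is at most
one linear factor. We prove that, for all squarefree `d`, `|d| ≤ X`, with at most `C X (log X) ^ (-δ)`
exceptions, the curve `C d` has EXACTLY as many rational points as there are linear factors: all its
rational points are the obvious Weierstrass points. In particular almost all the twists of every curve
with exactly one linear factor and three more factors of odd degree have exactly one rational point.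

In the starting library (`TwistsWithMixedFactors`) it is proved that almost all the curves `C d` have,
apart from the Weierstrass points, only rational points of constant type: the values of the `F k` lie
in the square classes of their values at one of the Weierstrass points. The absence of other points is
a consequence there if no factor is linear, for `d y² = x ^ 5 - x`, and for the curves with special
positions (four points in arithmetic progression) of `TwistsWithTrivialPoints`. Here this is proved in
all cases. A rational number of constant type is the abscissa of a rational point of one of finitely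
many multiquadratic coverings of the line, branched at all the zeros of the `F k` but one, so at five
or more points. Such a covering has finitely many rational points: by a correspondence of Bogomolov and
Tschinkel (projects BT and HE of helper83 and helper6) this follows from Mordell's conjecture for the
curve `s² = t⁶ + 1` over number fields, which is proved in the starting library.
-/

set_option autoImplicit false

namespace Pool.Agent.Results.MP_10e784_ag.QuadraticTwists

open Finset Polynomial

/-- the homogenisation `F(x, w) = ∑ i, a i * x ^ i * w ^ (n - i)` of `f = ∑ i, a i * x ^ i`,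
`n = deg f` -/
noncomputable def hom (f : ℤ[X]) {R : Type*} [CommRing R] (x w : R) : R :=
  ∑ i ∈ range (f.natDegree + 1), (f.coeff i : R) * x ^ i * w ^ (f.natDegree - i)

section K

variable {K : Type} [Fintype K] [DecidableEq K]

/-- the indices of the factors of odd degree -/
def Od (f : K → ℤ[X]) : Finset K := univ.filter (fun k => Odd (f k).natDegree)

/-- the indices of the linear factors -/
def Ln (f : K → ℤ[X]) : Finset K := univ.filter (fun k => (f k).natDegree = 1)

/-- the value of `F k` at the zero `(-b, a)` of the linear form `F i = a x + b w` -/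
noncomputable def val (f : K → ℤ[X]) (i k : K) : ℤ :=
  hom (f k) (-(f i).coeff 0) ((f i).coeff 1)

/-- the factors are irreducible over `ℚ`, pairwise non-associated, of even total degree at least six,
and at least four of them have odd degree -/
def Factors (f : K → ℤ[X]) : Prop :=
  (∀ k, Irreducible ((f k).map (Int.castRingHom ℚ))) ∧
  (∀ k l, k ≠ l →
    ¬ Associated ((f k).map (Int.castRingHom ℚ)) ((f l).map (Int.castRingHom ℚ))) ∧
  Even (∑ k, (f k).natDegree) ∧ 6 ≤ ∑ k, (f k).natDegree ∧ 4 ≤ (Od f).card

/-- the condition on the linear factors: for any two linear factors `i ≠ k` there is a product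
`F T`, `T ⊆ K \ {i, k}`, of even degree, whose values at the zeros of `F i`, `F k` are not in the
same square class; if there are exactly four factors of odd degree, and these are linear, then there
are two of them, `i` and `k`, and a product `F T` of factors of even degree with this property -/
def General (f : K → ℤ[X]) : Prop :=
  (∀ i ∈ Ln f, ∀ k ∈ Ln f, i ≠ k → ∃ T : Finset K, i ∉ T ∧ k ∉ T ∧ Even (T ∩ Od f).card ∧
    ¬ IsSquare (∏ l ∈ T, (val f i l * val f k l))) ∧
  ((Od f).card = 4 → Od f ⊆ Ln f → ∃ i ∈ Od f, ∃ k ∈ Od f, ∃ T : Finset K,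
    Disjoint T (Od f) ∧ ¬ IsSquare (∏ l ∈ T, (val f i l * val f k l)))

omit [DecidableEq K] in
/-- the rational points `(x : w : y)` of the curve `d y² = ∏ k, F k (x, w)`, in weighted projective
coordinates, every one of them represented by its unique representative for which `x, w` are coprime
integers, and `w > 0`, or `w = 0` and `x = 1` -/
def points (f : K → ℤ[X]) (d : ℤ) : Set (ℤ × ℤ × ℚ) :=
  {P | IsCoprime P.1 P.2.1 ∧ (0 < P.2.1 ∨ P.2.1 = 0 ∧ P.1 = 1) ∧
    (d : ℚ) * P.2.2 ^ 2 = ∏ k, hom (f k) (P.1 : ℚ) (P.2.1 : ℚ)}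

end K

section

variable {K : Type} [Fintype K] [DecidableEq K] {f : K → ℤ[X]}

/-- the root of a linear factor -/
noncomputable def rt (f : K → ℤ[X]) (k : K) : ℚ := -((f k).coeff 0 : ℚ) / ((f k).coeff 1 : ℚ)

omit [Fintype K] [DecidableEq K] in
lemma hom_zero_iff (k : K) (x w : ℚ) (hw : w ≠ 0) :
    hom (f k) x w = 0 ↔ ((f k).map (Int.castRingHom ℚ)).eval (x / w) = 0 := by
  have h := Pool.Agent.W2helper7.FA.hom_eval (f k) x w hw
  have h' : hom (f k) x w = w ^ (f k).natDegree * ((f k).map (Int.castRingHom ℚ)).eval (x / w) := h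
  rw [h', mul_eq_zero]
  exact ⟨fun h1 => h1.resolve_left (pow_ne_zero _ hw), Or.inr⟩

omit [Fintype K] [DecidableEq K] in
lemma root_iff (hirr : ∀ k, Irreducible ((f k).map (Int.castRingHom ℚ))) (k : K) (r : ℚ) :
    ((f k).map (Int.castRingHom ℚ)).eval r = 0 ↔ (f k).natDegree = 1 ∧ r = rt f k := by
  have hdeg : ((f k).map (Int.castRingHom ℚ)).natDegree = (f k).natDegree :=
    natDegree_map_eq_of_injective (RingHom.injective_int _) _
  have hlin : (f k).natDegree = 1 → ∀ s : ℚ, ((f k).map (Int.castRingHom ℚ)).eval s =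
      ((f k).coeff 1 : ℚ) * s + (f k).coeff 0 := by
    intro h1 s
    rw [eval_map, eval₂_eq_sum_range, h1, sum_range_succ, sum_range_one]
    simp
    ring
  have hc : (f k).natDegree = 1 → ((f k).coeff 1 : ℚ) ≠ 0 := by
    intro h1
    have h2 : f k ≠ 0 := by
      intro h3
      rw [h3, natDegree_zero] at h1
      exact zero_ne_one h1
    have h3 := leadingCoeff_ne_zero.2 h2
    rw [leadingCoeff, h1] at h3
    exact_mod_cast h3
  constructor
  · intro h
    have h1 : Associated (X - C r) ((f k).map (Int.castRingHom ℚ)) :=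
      (irreducible_X_sub_C r).associated_of_dvd (hirr k) (dvd_iff_isRoot.2 h)
    have h2 : (f k).natDegree = 1 := by
      rw [← hdeg, ← natDegree_eq_of_degree_eq (degree_eq_degree_of_associated h1),
        natDegree_X_sub_C]
    refine ⟨h2, ?_⟩
    rw [hlin h2] at h
    unfold rt
    rw [eq_div_iff (hc h2)]
    linear_combination h
  · rintro ⟨h1, rfl⟩
    rw [hlin h1]
    unfold rt
    rw [mul_div_cancel₀ _ (hc h1)]
    ring

omit [DecidableEq K] in
lemma points_eq (hirr : ∀ k, Irreducible ((f k).map (Int.castRingHom ℚ))) {d : ℤ}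
    (hno : ¬ ∃ x w y : ℚ, y ≠ 0 ∧ (d : ℚ) * y ^ 2 = ∏ k, hom (f k) x w) :
    points f d = (fun k => ((rt f k).num, ((rt f k).den : ℤ), (0 : ℚ))) ''
      {k | (f k).natDegree = 1} := by
  ext ⟨x, w, y⟩
  constructor
  · rintro ⟨hco, hn, hP⟩
    have hco : IsCoprime x w := hco
    have hP : (d : ℚ) * y ^ 2 = ∏ k, hom (f k) (x : ℚ) (w : ℚ) := hP
    have hy : y = 0 := by
      by_contra hy
      exact hno ⟨x, w, y, hy, hP⟩
    rw [hy, zero_pow two_ne_zero, mul_zero] at hP
    obtain ⟨k, -, hk⟩ := prod_eq_zero_iff.1 hP.symm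
    rcases hn with hw | ⟨hw, hx⟩
    · have hw : 0 < w := hw
      have hw0 : (w : ℚ) ≠ 0 := by exact_mod_cast hw.ne'
      rw [hom_zero_iff k _ _ hw0, root_iff hirr] at hk
      refine ⟨k, hk.1, ?_⟩
      have hcp : Nat.Coprime x.natAbs w.natAbs := Int.isCoprime_iff_gcd_eq_one.1 hco
      have e1 := Rat.num_div_eq_of_coprime hw hcp
      have e2 := Rat.den_div_eq_of_coprime hw hcp
      show ((rt f k).num, ((rt f k).den : ℤ), (0 : ℚ)) = (x, w, y)
      rw [← hk.2, e1, e2, hy]
    · exfalso
      have hw : w = 0 := hw
      have hx : x = 1 := hx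
      rw [hw, hx, Int.cast_zero, Int.cast_one] at hk
      unfold hom at hk
      rw [sum_range_succ, sum_eq_zero (fun i hi => by
        rw [zero_pow (by have := mem_range.1 hi; omega), mul_zero]), Nat.sub_self, pow_zero, one_pow,
        mul_one, mul_one, zero_add] at hk
      have h2 : f k ≠ 0 := by
        intro h3
        apply (hirr k).ne_zero
        rw [h3, Polynomial.map_zero]
      have h3 := leadingCoeff_ne_zero.2 h2
      apply h3
      exact_mod_cast hk
  · rintro ⟨k, hk, h⟩
    have hk : (f k).natDegree = 1 := hk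
    rw [Prod.mk.injEq, Prod.mk.injEq] at h
    obtain ⟨rfl, rfl, rfl⟩ := h
    refine ⟨Int.isCoprime_iff_gcd_eq_one.2 (rt f k).reduced, Or.inl ?_, ?_⟩
    · show 0 < ((rt f k).den : ℤ)
      exact_mod_cast (rt f k).den_pos
    · show (d : ℚ) * 0 ^ 2 = ∏ l, hom (f l) (((rt f k).num : ℤ) : ℚ) ((((rt f k).den : ℕ) : ℤ) : ℚ)
      rw [zero_pow two_ne_zero, mul_zero, eq_comm, prod_eq_zero_iff]
      refine ⟨k, mem_univ k, ?_⟩
      have hd0 : ((((rt f k).den : ℕ) : ℤ) : ℚ) ≠ 0 := by
        exact_mod_cast (rt f k).den_ne_zero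
      rw [hom_zero_iff k _ _ hd0, root_iff hirr]
      refine ⟨hk, ?_⟩
      rw [Int.cast_natCast, Rat.num_div_den]

lemma card_points (hF : Factors f) {d : ℤ}
    (hno : ¬ ∃ x w y : ℚ, y ≠ 0 ∧ (d : ℚ) * y ^ 2 = ∏ k, hom (f k) x w) :
    (points f d).encard = (Ln f).card := by
  rw [points_eq hF.1 hno]
  have hinj : Set.InjOn (fun k => ((rt f k).num, ((rt f k).den : ℤ), (0 : ℚ)))
      {k | (f k).natDegree = 1} := by
    intro k hk l hl h
    rw [Prod.mk.injEq, Prod.mk.injEq] at h
    obtain ⟨h1, h2, -⟩ := h
    have h3 : rt f k = rt f l := Rat.ext h1 (by exact_mod_cast h2)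
    by_contra hkl
    apply hF.2.1 k l hkl
    have e1 := (root_iff hF.1 k (rt f k)).2 ⟨hk, rfl⟩
    have e2 := (root_iff hF.1 l (rt f k)).2 ⟨hl, h3⟩
    exact ((irreducible_X_sub_C _).associated_of_dvd (hF.1 k) (dvd_iff_isRoot.2 e1)).symm.trans
      ((irreducible_X_sub_C _).associated_of_dvd (hF.1 l) (dvd_iff_isRoot.2 e2))
  rw [hinj.encard_image]
  have : {k : K | (f k).natDegree = 1} = (Ln f : Set K) := by
    ext k
    unfold Ln
    simp
  rw [this, Set.encard_coe_eq_coe_finsetCard]

end

theorem result (K : Type) [Fintype K] [DecidableEq K] (f : K → ℤ[X]) (hF : Factors f)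
    (hG : General f) :
    ∃ δ : ℝ, 0 < δ ∧ ∃ C : ℝ, ∀ X : ℕ, 3 ≤ X →
      ({d : ℤ | d.natAbs ≤ X ∧ Squarefree d ∧ (points f d).encard ≠ (Ln f).card}.ncard : ℝ) ≤
        C * X * (Real.log X) ^ (-δ) := by
  have hH : Pool.Agent.Y488.TM.Hyp f :=
    ⟨hF.1, hF.2.1, hF.2.2.1, hF.2.2.2.2, hG.1, hG.2⟩
  obtain ⟨δ, hδ, C, hC⟩ := Pool.Agent.Y488.TM.main2 f hH
    (Pool.Agent.W2helper7.FA.fin_TM hF.1 hF.2.1 hF.2.2.2.2 hF.2.2.2.1)
  refine ⟨δ, hδ, C, fun X hX => le_trans ?_ (hC X hX)⟩
  refine Nat.cast_le.2 (Set.ncard_le_ncard ?_ (Pool.Agent.TH213.SP.fin_le X _))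
  rintro d ⟨h1, h2, h3⟩
  refine ⟨h1, h2, ?_⟩
  by_contra hno
  apply h3
  apply card_points hF
  rintro ⟨x, w, y, hy, hP⟩
  exact hno ⟨x, w, y, hy, hP⟩

end Pool.Agent.Results.MP_10e784_ag.QuadraticTwists
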