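import Pool.Agent.W2helper7.FA.Fix
import Pool.Agent.W2helper7.FA.Cub
import Pool.Agent.W2helper7.FA.Fer

/-!
# Uniform bounds for cyclic coverings of the line with few separated branch points

Let `S` be a finite set of primes and `N ≥ 2`. Consider cyclic coverings of degree `N` of the
projective line over `ℚ`,

  `C : d Y ^ N = ∏ i, (b_i u - a_i w) ^ (m_i) * G(u, w)`

where `P_i = (a_i : b_i)`, `i = 1, …, r`, are rational points, the exponents `m_i` are prime to `N`
(`C` is totally ramified over the `P_i`), and `G` is ANY binary form with integral coefficients, of any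
degree. We assume only that

* the points `P_i` stay apart from each other modulo every prime outside `S`: the prime factors of the
  determinants `a_i b_j - a_j b_i`, `i ≠ j`, are in `S`,
* they stay apart from the other branch points, the zeros of `G`: the prime factors of the integers
  `G(a_i, b_i)` are in `S`, and so are those of `d`,
* `r (1 - 1 / N) > 2`, that is: `r ≥ 5` for `N = 2` (hyperelliptic curves), `r ≥ 4` for `N = 3`, `r ≥ 3`
  for `N ≥ 4`.

Nothing is assumed about the collisions of the zeros of `G` with each other: the curve `C` may have bad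
reduction at any number of primes outside `S`, and nothing is assumed about the rank of its Jacobian.

(1) There is a bound `B = B(S, N, r)`, INDEPENDENT of the points `P_i`, of `G` and its degree, of `d` and
the `m_i`, and of the genus of `C`, such that all these curves have at most `B` rational points. (The
rational points are given in weighted homogeneous coordinates `(u : w : Y)`, with coprime integers
`u, w`, `w > 0` or `(u, w) = (1, 0)`. If `N` does not divide the total degree then the point at infinity
is a further branch point, and the theorem holds for this normalisation of the equation, too. If `G` has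
multiple zeros then the smooth model of `C` has at most `N B` rational points.)

(2) Now let `f ∈ ℤ[x]` be a fixed polynomial, not necessarily with rational roots, such that the curve
`y² = f(x)` has geometric genus at least two. There is a finite set `E = E(S, f)` of rational numbers such
that for ALL even `N > 0`, odd `m`, all `d ≠ 0` whose prime factors are in `S`, and all `g ∈ ℤ[x]`, of any
degree, which have no common zero with `f` modulo the primes outside `S`, all the rational points `(x, y)`
of the curve `d y ^ N = f(x) ^ m g(x)` have `x ∈ E`. (At infinity a polynomial is considered to vanish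
modulo `p` if `p` divides its leading coefficient, and it vanishes if its degree is odd.) So again the
number of the rational points is bounded independently of `g`, of its degree and of the genus.

(3) For example, let `f ∈ ℤ[x]` be monic of even degree at least six, without multiple roots. There is a
finite set `E = E(f)` such that for EVERY polynomial `h ∈ ℤ[x]` all rational points of the curve
`y² = f(x) (1 + f(x) h(x))` have `x ∈ E`. If `2 n` is the degree of `f`, this is a family of curves of
genus `g` with `2 g - 4 n + 3` integral parameters, the coefficients of `h`, for every large `g`.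

Proof. Let `(u, w, Y)` be a rational point and `L_i = b_i u - a_i w`. A prime outside `S` divides at most
one of the numbers `L_i(u, w)` and `G(u, w)` if it divides one of the `L_i(u, w)`. So its exponent in
`L_i(u, w)` is divisible by `N`, and `L_i(u, w) = δ_i z_i ^ N` with `δ_i` in a finite set. The cross ratios
`λ` of the `P_i` are such that `λ` and `1 - λ` are units outside `S`; by the theorem on the unit equation
there are finitely many of them. For `N ≥ 4` the point `(u : w)`, in the coordinate in which
`P_1, P_2, P_3` are `0, ∞, 1`, comes from one of finitely many Fermat curves; for `N = 3` from one of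
finitely many curves `s² = δ² v⁶ + (2 - 4 λ) δ v³ + 1` of genus two, `v³ = t (t - 1) / (δ (t - λ))`; and
for `N = 2` from one of finitely many curves for which `t, t - 1, t - λ, t - μ` are squares, up to fixed
factors. In (2) the value `f(x)` is a square, up to finitely many factors. All of these have finitely many rational points by Mordell's conjecture, which is proved for
them, over number fields, in the projects BT and HE (helper83, helper6) from the case of the curve
`y² = x⁶ + 1` in the starting library.
-/

set_option autoImplicit false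

namespace Pool.Agent.Results.MP_10e784_ag.SeparatedBranchPoints

open Finset Polynomial

/-- `n ≠ 0`, and all the prime factors of `n` are in `S` -/
def Smooth (S : Finset ℕ) (n : ℤ) : Prop := n ≠ 0 ∧ ∀ p : ℕ, p.Prime → (p : ℤ) ∣ n → p ∈ S

/-- the binary form `G(u, w) = ∑ k ≤ n, c k * u ^ k * w ^ (n - k)` of degree `n`, where the `c k` are the
coefficients of the polynomial `g` -/
noncomputable def form (g : ℤ[X]) (n : ℕ) (u w : ℤ) : ℤ :=
  ∑ k ∈ range (n + 1), g.coeff k * u ^ k * w ^ (n - k)

/-- modulo every prime outside `S` the points `P i = (a_i : b_i)` stay apart from each other and from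
the zeros of the form -/
def Apart (S : Finset ℕ) {r : ℕ} (P : Fin r → ℤ × ℤ) (g : ℤ[X]) (n : ℕ) : Prop :=
  (∀ i j, i ≠ j → Smooth S ((P i).1 * (P j).2 - (P j).1 * (P i).2)) ∧
  ∀ i, Smooth S (form g n (P i).1 (P i).2)

/-- the rational points `((u, w), Y)` of the curve `d * Y ^ N = ∏ (b_i u - a_i w) ^ (m_i) * G(u, w)`; the
homogeneous coordinates `u, w` are coprime integers, `w > 0` or `(u, w) = (1, 0)` -/
def points {r : ℕ} (P : Fin r → ℤ × ℤ) (g : ℤ[X]) (n : ℕ) (d : ℤ) (N : ℕ) (m : Fin r → ℕ) :
    Set ((ℤ × ℤ) × ℚ) :=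
  {Q | IsCoprime Q.1.1 Q.1.2 ∧ (0 < Q.1.2 ∨ Q.1.2 = 0 ∧ Q.1.1 = 1) ∧
    (d : ℚ) * Q.2 ^ N =
      (((∏ i, ((P i).2 * Q.1.1 - (P i).1 * Q.1.2) ^ m i) * form g n Q.1.1 Q.1.2 : ℤ) : ℚ)}

/-- the complex roots of odd multiplicity -/
def oddRoots (f : ℤ[X]) : Set ℂ :=
  {z | Odd ((f.map (Int.castRingHom ℂ)).rootMultiplicity z)}

/-- modulo every prime outside `S` the polynomials `f` and `g` have no common zero, neither an integer
nor infinity, where a polynomial is considered to vanish at infinity modulo `p` if its degree is odd or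
its leading coefficient is divisible by `p` -/
def ApartPoly (S : Finset ℕ) (f g : ℤ[X]) : Prop := ∀ p : ℕ, p.Prime → p ∉ S →
  (∀ a : ℤ, ¬ ((p : ℤ) ∣ f.eval a ∧ (p : ℤ) ∣ g.eval a)) ∧
  ¬ (((p : ℤ) ∣ f.leadingCoeff ∨ Odd f.natDegree) ∧ ((p : ℤ) ∣ g.leadingCoeff ∨ Odd g.natDegree))

lemma aeval_val (f : ℤ[X]) (x : ℚ) : aeval x f = Pool.Agent.W2helper7.FA.val f x := by
  unfold Pool.Agent.W2helper7.FA.val
  rw [aeval_def]
  rfl

lemma part2 (S : Finset ℕ) (f : ℤ[X]) (hf : f ≠ 0) (h6 : 6 ≤ (oddRoots f).ncard + f.natDegree % 2) :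
    ∃ E : Finset ℚ, ∀ (g : ℤ[X]) (d : ℤ) (N m : ℕ), ApartPoly S f g → Smooth S d → Even N → 0 < N →
      Odd m → ∀ x y : ℚ, (d : ℚ) * y ^ N = aeval x f ^ m * aeval x g → x ∈ E := by
  have e : Pool.Agent.W2helper7.FA.oddRoots (fun _ : Unit => f) = oddRoots f := by
    ext z
    exact ⟨fun ⟨_, h⟩ => h, fun h => ⟨(), h⟩⟩
  obtain ⟨E, hE⟩ := Pool.Agent.W2helper7.FA.fixed S f hf (by rw [e]; exact h6)
  refine ⟨E, fun g d N m hA hd hN hN0 hm x y hP => ?_⟩
  rw [aeval_val, aeval_val] at hP
  exact hE g d N m hA hd hN hN0 hm x y hP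

lemma part3 (f : ℤ[X]) (hm : f.Monic) (he : Even f.natDegree) (h6 : 6 ≤ f.natDegree)
    (hs : (f.map (Int.castRingHom ℚ)).Separable) : ∃ E : Finset ℚ, ∀ (h : ℤ[X]) (x y : ℚ),
      y ^ 2 = aeval x f * (1 + aeval x f * aeval x h) → x ∈ E := by
  have hC : (f.map (Int.castRingHom ℂ)).Separable := by
    have h1 := hs.map (f := algebraMap ℚ ℂ)
    rwa [Polynomial.map_map, show (algebraMap ℚ ℂ).comp (Int.castRingHom ℚ) = Int.castRingHom ℂ from
      RingHom.ext_int _ _] at h1
  have hne : f.map (Int.castRingHom ℂ) ≠ 0 := hC.ne_zero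
  have hsub : ((f.map (Int.castRingHom ℂ)).roots.toFinset : Set ℂ) ⊆ oddRoots f := by
    intro w hw
    rw [Finset.mem_coe, Multiset.mem_toFinset, mem_roots hne] at hw
    have h2 := rootMultiplicity_le_one_of_separable hC w
    have h3 := (rootMultiplicity_pos hne).2 hw
    have h4 : (f.map (Int.castRingHom ℂ)).rootMultiplicity w = 1 := by omega
    show Odd _
    rw [h4]
    exact odd_one
  have hfin : (oddRoots f).Finite := by
    refine ((f.map (Int.castRingHom ℂ)).roots.toFinset.finite_toSet).subset ?_
    intro w hw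
    rw [Finset.mem_coe, Multiset.mem_toFinset, mem_roots hne]
    exact (rootMultiplicity_pos hne).1 (Odd.pos hw)
  have hcard : f.natDegree ≤ (oddRoots f).ncard := by
    refine le_trans (le_of_eq ?_) (Set.ncard_le_ncard hsub hfin)
    rw [Set.ncard_coe_finset, Multiset.toFinset_card_of_nodup (nodup_roots hC),
      ← (IsAlgClosed.splits (f.map (Int.castRingHom ℂ))).natDegree_eq_card_roots,
      natDegree_map_eq_of_injective (RingHom.injective_int _)]
  obtain ⟨E, hE⟩ := part2 ∅ f hm.ne_zero (by omega)
  refine ⟨E, fun h x y hP => hE (1 + f * h) 1 2 1 ?_ ⟨one_ne_zero, ?_⟩ (by decide) (by norm_num)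
    (by decide) x y ?_⟩
  · intro p hp _
    have hp1 : ¬ (p : ℤ) ∣ 1 := fun h' => (Nat.prime_iff_prime_int.1 hp).not_isUnit (isUnit_of_dvd_one h')
    refine ⟨?_, ?_⟩
    · rintro a ⟨h1, h2⟩
      rw [eval_add, eval_one, eval_mul] at h2
      exact hp1 ((dvd_add_left (dvd_mul_of_dvd_left h1 _)).1 h2)
    · rintro ⟨h1 | h1, -⟩
      · rw [hm.leadingCoeff] at h1
        exact hp1 h1
      · exact (Nat.not_odd_iff_even.2 he) h1
  · intro p hp h'
    exact absurd (isUnit_of_dvd_one h') (Nat.prime_iff_prime_int.1 hp).not_isUnit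
  · rw [Int.cast_one, one_mul, pow_one, hP, map_add, map_one, map_mul]

theorem result :
    (∀ (S : Finset ℕ) (N r : ℕ), 2 * N < r * (N - 1) → ∃ B : ℕ,
      ∀ (P : Fin r → ℤ × ℤ) (g : ℤ[X]) (n : ℕ) (d : ℤ) (m : Fin r → ℕ),
        Apart S P g n → Smooth S d → (∀ i, (m i).Coprime N) → (points P g n d N m).encard ≤ B) ∧
    (∀ (S : Finset ℕ) (f : ℤ[X]), f ≠ 0 → 6 ≤ (oddRoots f).ncard + f.natDegree % 2 →
      ∃ E : Finset ℚ, ∀ (g : ℤ[X]) (d : ℤ) (N m : ℕ), ApartPoly S f g → Smooth S d → Even N → 0 < N →
        Odd m → ∀ x y : ℚ, (d : ℚ) * y ^ N = aeval x f ^ m * aeval x g → x ∈ E) ∧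
    (∀ f : ℤ[X], f.Monic → Even f.natDegree → 6 ≤ f.natDegree →
      (f.map (Int.castRingHom ℚ)).Separable → ∃ E : Finset ℚ, ∀ (h : ℤ[X]) (x y : ℚ),
        y ^ 2 = aeval x f * (1 + aeval x f * aeval x h) → x ∈ E) := by
  refine ⟨?_, part2, part3⟩
  · intro S N r hr
    have hN : 2 ≤ N := by
      by_contra h
      have : N - 1 = 0 := by omega
      rw [this, mul_zero] at hr
      omega
    have hcore : 3 ≤ r ∧ Pool.Agent.W2helper7.FA.Core S N r := by
      by_cases h2 : N = 2
      · subst h2
        have h5 : 5 ≤ r := by omega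
        exact ⟨by omega, Pool.Agent.W2helper7.FA.Core.mono (by norm_num) h5
          (Pool.Agent.W2helper7.FA.core5 S)⟩
      by_cases h3 : N = 3
      · subst h3
        have h4 : 4 ≤ r := by omega
        exact ⟨by omega, Pool.Agent.W2helper7.FA.Core.mono (by norm_num) h4
          (Pool.Agent.W2helper7.FA.core4 S)⟩
      · have h3' : 3 ≤ r := by
          by_contra h
          have h1 : r * (N - 1) ≤ 2 * (N - 1) := Nat.mul_le_mul_right _ (by omega)
          omega
        exact ⟨h3', Pool.Agent.W2helper7.FA.Core.mono (le_refl 3) h3'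
          (Pool.Agent.W2helper7.FA.core3 S (by omega))⟩
    obtain ⟨B, hB⟩ := Pool.Agent.W2helper7.FA.bound_of_core (by omega) hcore.1 hcore.2
    refine ⟨B, fun P g n d m hA hd hm => ?_⟩
    have hform : ∀ u w : ℤ, Pool.Agent.W2helper7.FA.form g n u w = form g n u w := by
      intro u w
      unfold Pool.Agent.W2helper7.FA.form form
      refine sum_congr rfl fun k _ => ?_
      rw [Int.cast_id]
    have hA' : Pool.Agent.W2helper7.FA.Apart S P g n :=
      ⟨hA.1, fun i => by rw [hform]; exact hA.2 i⟩
    refine (Set.encard_le_encard ?_).trans (hB P g n d m hA' hd hm)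
    rintro ⟨⟨u, w⟩, Y⟩ ⟨h1, h2, h3⟩
    refine ⟨⟨h1, h2⟩, ?_⟩
    show (d : ℚ) * Y ^ N = (∏ i, (Pool.Agent.W2helper7.FA.lf (P i) u w : ℚ) ^ m i) *
      (Pool.Agent.W2helper7.FA.form g n u w : ℤ)
    rw [hform]
    have h3 : (d : ℚ) * Y ^ N =
      (((∏ i, ((P i).2 * u - (P i).1 * w) ^ m i) * form g n u w : ℤ) : ℚ) := h3
    rw [h3, Int.cast_mul, Int.cast_prod]
    congr 1
    refine prod_congr rfl fun i _ => ?_
    rw [Int.cast_pow]
    rfl

end Pool.Agent.Results.MP_10e784_ag.SeparatedBranchPoints
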