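import Pool.Agent.W2helper7.FA.Const

/-!
# Twists of cyclic coverings of the line with at least three totally ramified rational points

Let `N` be even. Consider the cyclic coverings of degree `N` of the projective line

  `C_d : d w ^ N = c ∏ (x - a_i) ^ (e_i) ∏ g_k(x) ^ (r_k) h(x) ^ ρ`

where `a_i ∈ ℤ`, `i ∈ ι`, are distinct, there are at least two of them, the exponents `e_i` and the
total degree are prime to `N` (the covering is totally ramified at the `a_i` and at infinity),
`g_k ∈ ℤ[X]`, `k ∈ K`, and `h ∈ ℤ[X]` are pairwise coprime and do not vanish at the `a_i`, some `g_k`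
has odd degree, `r_k` and `ρ` are not prime to `N`, and `N / gcd(r_k, N)` is even. For fixed exponents
and varying `d ≠ 0` these are the twists of one curve by the group `μ_N`.

A rational number `x` is said to have the type of `a_i` if all the `(x - a_j)(a_i - a_j)`, `j ≠ i`, and
all the `g_k(x) g_k(a_i)` are squares, and the type of infinity if all the `(x - a_i)(x - a_j)` and all
the `l_k g_k(x) (x - a_i) ^ (deg g_k)` are squares (`l_k` the leading coefficient of `g_k`). (The
totally ramified points of the curve `C_d` are rational for all `d`; a point of `C_d` over `ℚ_p` which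
is `p`-adically close to one of them has its type over `ℚ_p`.) Suppose that no two of the points `a_i`,
`∞` have the same type. We prove, for a fixed rational number `c ≠ 0`, and SIMULTANEOUSLY for all even
`N` and all exponents as above:

(1) Suppose that the number of the `a_i` and the number of the complex roots of odd multiplicity of
the `g_k` are together at least five. Then, for all squarefree `d` with at most
`C X (log X) ^ (-1/5)` exceptions `|d| ≤ X`, and for all integers `d` outside a set of density zero,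
the only affine rational points of all the curves `C_d` are the trivial ones, `w = 0`.

(2) Without the condition on the number of the points: for the same `d` all the affine rational points
with `w ≠ 0` of the curves `C_d` are of constant type (`x` has the type of an `a_i` or of infinity).

For example, let `N = 4`, let there be three points `a_1, a_2, a_3`, and let `g_k = X - b_k`,
`k = 1, …, n`, `n ≥ 2`. For almost all `d` the elliptic curve `d y² = c (x - a_1)(x - a_2)(x - a_3)`
has no rational point with `y ≠ 0` for which `y h(x) ∏ (x - b_k)` is a nonzero square. (These curves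
are believed to have positive rank for half of the `d`.)

Method: the primes `p ∣ d` are distributed to the totally ramified points: `d = κ ∏ P_s`, and the square
classes of the linear forms `x - a_i`, and of the `g_k`, are `κ_i P_i` and `κ_k` with bounded `κ`. At
`p ∣ P_s` all the symbols of the other forms are determined. There are few such tuples: bilinear sums
of Jacobi symbols (project TW of helper262 in the starting library, `ABS1`). A rational number of
constant type is the abscissa of a rational point of one of finitely many multiquadratic coverings of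
the line, branched at all the `a_i`, `∞` but one, and at the roots of odd multiplicity. Each has
finitely many rational points if there are five or more branch points: by a correspondence of
Bogomolov and Tschinkel (project BT of helper83 and helper6) this follows from Mordell's conjecture
for the curve `s² = t⁶ + 1` over number fields, which is proved in the starting library.
-/

set_option autoImplicit false

namespace Pool.Agent.Results.MP_10e784_ag.TwistsOfCyclicCoverings

open Finset Filter Polynomial Topology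

/-- the value `f(x)` -/
noncomputable def val (f : ℤ[X]) (x : ℚ) : ℚ := f.eval₂ (Int.castRingHom ℚ) x

/-- the affine rational points `(x, w)` of the curve
`d w ^ N = c ∏ (x - a_i) ^ (e_i) ∏ g_k(x) ^ (r_k) h(x) ^ ρ` -/
def points {ι K : Type} [Fintype ι] [Fintype K] (a : ι → ℤ) (g : K → ℤ[X]) (h : ℤ[X])
    (N : ℕ) (e : ι → ℕ) (r : K → ℕ) (ρ : ℕ) (c : ℚ) (d : ℤ) : Set (ℚ × ℚ) :=
  {P | (d : ℚ) * P.2 ^ N =
    c * ((∏ i, (P.1 - a i) ^ e i) * (∏ k, val (g k) P.1 ^ r k) * val h P.1 ^ ρ)}

/-- the degree of the covering is even; `e_i` and the total degree are prime to `N`, the other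
exponents are not prime to `N`, and the `N / gcd(r_k, N)` are even -/
def Exponents {ι K : Type} [Fintype ι] [Fintype K] (g : K → ℤ[X]) (h : ℤ[X])
    (N : ℕ) (e : ι → ℕ) (r : K → ℕ) (ρ : ℕ) : Prop :=
  0 < N ∧ Even N ∧ (∀ i, (e i).Coprime N) ∧ (∀ k, (r k).gcd N ≠ 1 ∧ Even (N / (r k).gcd N)) ∧
  ρ.gcd N ≠ 1 ∧ (∑ i, e i + ∑ k, r k * (g k).natDegree + ρ * h.natDegree).Coprime N

/-- the `a_i` are distinct, there are at least two of them, some `g_k` has odd degree, the `g_k` and
`h` do not vanish at the `a_i`, and are pairwise coprime -/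
def Factors {ι K : Type} (a : ι → ℤ) (g : K → ℤ[X]) (h : ℤ[X]) : Prop :=
  Function.Injective a ∧ (∃ i j : ι, i ≠ j) ∧ (∃ k, Odd (g k).natDegree) ∧
  (∀ i, (∀ k, (g k).eval (a i) ≠ 0) ∧ h.eval (a i) ≠ 0) ∧
  (∀ k l, k ≠ l → IsCoprime ((g k).map (Int.castRingHom ℚ)) ((g l).map (Int.castRingHom ℚ))) ∧
  ∀ k, IsCoprime ((g k).map (Int.castRingHom ℚ)) (h.map (Int.castRingHom ℚ))

/-- `x` has the type of `a_i` -/
def TypeF {ι K : Type} (a : ι → ℤ) (g : K → ℤ[X]) (i : ι) (x : ℚ) : Prop :=
  (∀ j, j ≠ i → IsSquare ((x - a j) * ((a i - a j : ℤ) : ℚ))) ∧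
  ∀ k, IsSquare (val (g k) x * (((g k).eval (a i) : ℤ) : ℚ))

/-- `x` has the type of infinity -/
def TypeI {ι K : Type} (a : ι → ℤ) (g : K → ℤ[X]) (x : ℚ) : Prop :=
  (∀ i j, IsSquare ((x - a i) * (x - a j))) ∧
  ∀ k i, IsSquare (((g k).leadingCoeff : ℚ) * val (g k) x * (x - a i) ^ (g k).natDegree)

/-- constant type -/
def Const {ι K : Type} (a : ι → ℤ) (g : K → ℤ[X]) (x : ℚ) : Prop :=
  (∃ i, TypeF a g i x) ∨ TypeI a g x

/-- no two of the points `a_i`, `∞` have the same type -/
def General {ι K : Type} (a : ι → ℤ) (g : K → ℤ[X]) : Prop :=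
  (∀ i l, i ≠ l → ¬ TypeF a g i (a l)) ∧ ∀ i, ¬ TypeI a g (a i)

/-- the complex numbers which are roots of odd multiplicity of one of the polynomials -/
def oddRoots {K : Type} (g : K → ℤ[X]) : Set ℂ :=
  {z | ∃ k, Odd (((g k).map (Int.castRingHom ℂ)).rootMultiplicity z)}

/-- some curve of the family has a rational point with `w ≠ 0` of nonconstant type -/
def Nonconst {ι K : Type} [Fintype ι] [Fintype K] (a : ι → ℤ) (g : K → ℤ[X]) (h : ℤ[X]) (c : ℚ)
    (d : ℤ) : Prop :=
  ∃ (N : ℕ) (e : ι → ℕ) (r : K → ℕ) (ρ : ℕ), Exponents g h N e r ρ ∧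
    ∃ P ∈ points a g h N e r ρ c d, P.2 ≠ 0 ∧ ¬ Const a g P.1

/-- the affine rational points of all the curves of the family are trivial: `w = 0` -/
def OnlyTrivial {ι K : Type} [Fintype ι] [Fintype K] (a : ι → ℤ) (g : K → ℤ[X]) (h : ℤ[X]) (c : ℚ)
    (d : ℤ) : Prop :=
  ∀ (N : ℕ) (e : ι → ℕ) (r : K → ℕ) (ρ : ℕ), Exponents g h N e r ρ →
    ∀ P ∈ points a g h N e r ρ c d, P.2 = 0

/-- the number of the `d`, `|d| ≤ X`, with the property `P` is at most `C X (log X) ^ (-1/5)` -/
def Few (P : ℤ → Prop) : Prop :=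
  ∃ C : ℝ, ∀ X : ℕ, 3 ≤ X →
    ({d : ℤ | d.natAbs ≤ X ∧ P d}.ncard : ℝ) ≤ C * X * (Real.log X) ^ (-(1 / 5 : ℝ))

/-- the integers with the property `P` have density zero -/
def DensityZero (P : ℤ → Prop) : Prop :=
  Tendsto (fun X : ℕ => ({d : ℤ | d.natAbs ≤ X ∧ P d}.ncard : ℝ) / X) atTop (𝓝 0)

/-- few squarefree `d`, and a set of density zero of all the integers `d ≠ 0`, have the property `P` -/
def Exceptional (P : ℤ → Prop) : Prop :=
  Few (fun d => Squarefree d ∧ P d) ∧ DensityZero (fun d => d ≠ 0 ∧ P d)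

lemma exc_mono {P Q : ℤ → Prop} (h : ∀ d, P d → Q d) (hQ : ∃ C : ℝ, 0 ≤ C ∧ ∀ X : ℕ, 3 ≤ X →
    ({d : ℤ | d.natAbs ≤ X ∧ (Squarefree d ∧ Q d)}.ncard : ℝ) ≤
      C * X * (Real.log X) ^ (-(1 / 5 : ℝ)))
    (hQ' : Tendsto (fun X : ℕ => ({d : ℤ | d.natAbs ≤ X ∧ d ≠ 0 ∧ Q d}.ncard : ℝ) / X) atTop (𝓝 0)) :
    Exceptional P := by
  have hfin : ∀ (X : ℕ) (R : ℤ → Prop), {d : ℤ | d.natAbs ≤ X ∧ R d}.Finite := by
    intro X R
    apply (Set.finite_Icc (-(X : ℤ)) X).subset
    intro d hd
    have h1 : d.natAbs ≤ X := hd.1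
    rw [Set.mem_Icc]
    omega
  constructor
  · obtain ⟨C, -, H⟩ := hQ
    refine ⟨C, fun X hX => le_trans ?_ (H X hX)⟩
    exact Nat.cast_le.2 (Set.ncard_le_ncard (fun d hd => ⟨hd.1, hd.2.1, h d hd.2.2⟩) (hfin X _))
  · refine squeeze_zero (fun X => by positivity) (fun X => ?_) hQ'
    apply div_le_div_of_nonneg_right _ (Nat.cast_nonneg X)
    exact Nat.cast_le.2 (Set.ncard_le_ncard (fun d hd => ⟨hd.1, hd.2.1, h d hd.2.2⟩) (hfin X _))

section

variable {ι K : Type}

lemma pre_of {a : ι → ℤ} {g : K → ℤ[X]} {h : ℤ[X]} (hF : Factors a g h) :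
    Pool.Agent.W2helper7.CC.Pre a g h := by
  obtain ⟨ha, ⟨i0, -, -⟩, hodd, hne, hco, hco'⟩ := hF
  refine ⟨ha, ?_, ?_, ?_, hodd⟩
  · intro k i
    rcases k with _ | k
    · exact (hne i).2
    · exact (hne i).1 k
  · intro k h0
    rcases k with _ | k
    · exact (hne i0).2 (by
        have h1 : h = 0 := h0
        rw [h1, eval_zero])
    · exact (hne i0).1 k (by
        have h1 : g k = 0 := h0
        rw [h1, eval_zero])
  · intro k l hkl
    rcases k with _ | k <;> rcases l with _ | l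
    · exact absurd rfl hkl
    · exact (hco' l).symm
    · exact hco' k
    · exact hco k l (fun h1 => hkl (by rw [h1]))

lemma adm_of {a : ι → ℤ} {g : K → ℤ[X]} {h : ℤ[X]} (hF : Factors a g h) (hG : General a g) :
    Pool.Agent.W2helper7.CC.Adm a g h := by
  obtain ⟨i0, j0, hij0⟩ := hF.2.1
  obtain ⟨ha, hq, hq0, hco, hodd⟩ := pre_of hF
  obtain ⟨k0, hk0⟩ := hodd
  obtain ⟨hG1, hG2⟩ := hG
  have hval : ∀ (f : ℤ[X]) (t : ℤ), val f (t : ℚ) = ((f.eval t : ℤ) : ℚ) := by
    intro f t
    unfold val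
    have h2 := Polynomial.eval₂_at_apply (p := f) (Int.castRingHom ℚ) t
    rw [eq_intCast, eq_intCast] at h2
    exact h2
  refine ⟨ha, hq, hq0, hco, ⟨k0, hk0⟩, ?_, ?_⟩
  · intro i l hil
    by_contra hcon
    push Not at hcon
    obtain ⟨h1, h2⟩ := hcon
    apply hG1 i l hil
    constructor
    · intro j hj
      by_cases hjl : j = l
      · rw [hjl, sub_self, zero_mul]
        exact ⟨0, by norm_num⟩
      · have h3 := Pool.Agent.W2helper7.CC.castsq (h1 j hj hjl)
        push_cast at h3 ⊢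
        rwa [mul_comm]
    · intro k
      have h3 := Pool.Agent.W2helper7.CC.castsq (h2 k)
      push_cast at h3
      rwa [hval, mul_comm]
  · intro i
    by_contra hcon
    push Not at hcon
    obtain ⟨h1, h2, h3⟩ := hcon
    obtain ⟨j1, hj1⟩ : ∃ j, j ≠ i := by
      by_cases h : i0 = i
      · exact ⟨j0, fun h' => hij0 (h.trans h'.symm)⟩
      · exact ⟨i0, h⟩
    have hτ : (g k0).eval (a i) * (g k0).leadingCoeff ≠ 0 :=
      mul_ne_zero (hq (some k0) i) (leadingCoeff_ne_zero.2 (hq0 (some k0)))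
    apply hG2 i
    constructor
    · intro j l
      by_cases hj : j = i
      · rw [hj, sub_self, zero_mul]
        exact ⟨0, by norm_num⟩
      · by_cases hl : l = i
        · rw [hl, sub_self, mul_zero]
          exact ⟨0, by norm_num⟩
        · have h4 := Pool.Agent.W2helper7.CC.castsq
            (Pool.Agent.W2helper7.CC.sqc hτ (h3 k0 j hk0 hj) (h3 k0 l hk0 hl))
          push_cast at h4
          exact h4
    · intro k j
      rw [hval]
      rcases Nat.even_or_odd (g k).natDegree with hk | hk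
      · have h4 := Pool.Agent.W2helper7.CC.castsq (h1 k hk)
        push_cast at h4
        obtain ⟨n, hn⟩ := hk
        rw [hn]
        rw [show ((g k).leadingCoeff : ℚ) * (((g k).eval (a i) : ℤ) : ℚ) *
          ((a i : ℚ) - a j) ^ (n + n) = (((g k).eval (a i) : ℤ) : ℚ) * ((g k).leadingCoeff : ℚ) *
          (((a i : ℚ) - a j) ^ n * ((a i : ℚ) - a j) ^ n) by ring]
        exact h4.mul ⟨_, rfl⟩
      · by_cases hj : j = i
        · rw [hj, sub_self, zero_pow hk.pos.ne', mul_zero]
          exact ⟨0, by norm_num⟩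
        · have h4 := Pool.Agent.W2helper7.CC.castsq (h3 k j hk hj)
          push_cast at h4
          obtain ⟨n, hn⟩ := hk
          rw [hn]
          rw [show ((g k).leadingCoeff : ℚ) * (((g k).eval (a i) : ℤ) : ℚ) *
            ((a i : ℚ) - a j) ^ (2 * n + 1) = ((a i : ℚ) - a j) *
            ((((g k).eval (a i) : ℤ) : ℚ) * ((g k).leadingCoeff : ℚ)) *
            (((a i : ℚ) - a j) ^ n * ((a i : ℚ) - a j) ^ n) by ring]
          exact h4.mul ⟨_, rfl⟩

variable [Fintype ι] [Fintype K]

/-- the exponents in the form of the library -/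
lemma exps_of {g : K → ℤ[X]} {h : ℤ[X]} {N : ℕ} {e : ι → ℕ} {r : K → ℕ} {ρ : ℕ}
    (hE : Exponents g h N e r ρ) :
    Pool.Agent.W2helper7.CC.Exps N (Pool.Agent.W2helper7.CC.qq g h) e (fun k => k.elim ρ r) := by
  obtain ⟨h1, h2, h3, h4, h5, h6⟩ := hE
  refine ⟨h1, h2, h3, ?_, fun k => (h4 k).2, ?_⟩
  · intro k
    rcases k with _ | k
    · exact h5
    · exact (h4 k).1
  · rw [Fintype.sum_option]
    show (∑ i, e i + (ρ * h.natDegree + ∑ k, r k * (g k).natDegree)).Coprime N
    rwa [add_comm (ρ * h.natDegree), ← add_assoc]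

lemma pt_of {a : ι → ℤ} {g : K → ℤ[X]} {h : ℤ[X]} {N : ℕ} {e : ι → ℕ} {r : K → ℕ} {ρ : ℕ} {c : ℚ}
    {d : ℤ} {P : ℚ × ℚ} (hP : P ∈ points a g h N e r ρ c d) (hw : P.2 ≠ 0) :
    Pool.Agent.W2helper7.CC.Pt a (Pool.Agent.W2helper7.CC.qq g h) c N e (fun k => k.elim ρ r) d
      P.1 P.2 := by
  refine ⟨hw, ?_⟩
  have h1 : (d : ℚ) * P.2 ^ N =
    c * ((∏ i, (P.1 - a i) ^ e i) * (∏ k, val (g k) P.1 ^ r k) * val h P.1 ^ ρ) := hP
  rw [Fintype.prod_option, h1]
  show _ = c * ((∏ i, (P.1 - (a i : ℚ)) ^ e i) * (val h P.1 ^ ρ * ∏ k, val (g k) P.1 ^ r k))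
  ring

lemma bad_of {a : ι → ℤ} {g : K → ℤ[X]} {h : ℤ[X]} {c : ℚ} {d : ℤ} (hd : Nonconst a g h c d) :
    Pool.Agent.W2helper7.CC.Bad a g h c d := by
  obtain ⟨N, e, r, ρ, hE, P, hP, hw, hc⟩ := hd
  exact ⟨N, e, _, exps_of hE, P.1, P.2, pt_of hP hw, fun i hi => hc (Or.inl ⟨i, hi⟩),
    fun hi => hc (Or.inr hi)⟩

lemma badE_of {a : ι → ℤ} {g : K → ℤ[X]} {h : ℤ[X]} {c : ℚ} {d : ℤ}
    (hd : ¬ OnlyTrivial a g h c d) : Pool.Agent.W2helper7.CC.BadE a g h c d := by
  unfold OnlyTrivial at hd
  push Not at hd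
  obtain ⟨N, e, r, ρ, hE, P, hP, hw⟩ := hd
  exact ⟨N, e, _, exps_of hE, P.1, P.2, pt_of hP hw⟩

lemma concl1 {a : ι → ℤ} {g : K → ℤ[X]} {h : ℤ[X]} (hF : Factors a g h) (hG : General a g) (c : ℚ)
    (hc : c ≠ 0) : Exceptional (Nonconst a g h c) := by
  classical
  exact exc_mono (fun d hd => bad_of hd)
    (Pool.Agent.W2helper7.CC.mainA a g h (adm_of hF hG) c hc)
    (Pool.Agent.W2helper7.CC.mainD a g h (adm_of hF hG) c hc)

lemma concl2 {a : ι → ℤ} {g : K → ℤ[X]} {h : ℤ[X]} (hA : Pool.Agent.W2helper7.CC.Adm a g h)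
    (hfin : (Pool.Agent.W2helper7.CC.CT a g).Finite) (c : ℚ) (hc : c ≠ 0) :
    Exceptional (fun d => ¬ OnlyTrivial a g h c d) := by
  classical
  exact exc_mono (fun d hd => badE_of hd)
    (Pool.Agent.W2helper7.CC.mainB a g h hA hfin c hc)
    (Pool.Agent.W2helper7.CC.mainC a g h hA hfin c hc)

lemma fin_of {a : ι → ℤ} {g : K → ℤ[X]} {h : ℤ[X]} (hF : Factors a g h)
    (h5 : 5 ≤ Fintype.card ι + (oddRoots g).ncard) : (Pool.Agent.W2helper7.CC.CT a g).Finite := by
  have hne : ∀ i k, (g k).eval (a i) ≠ 0 := fun i k => (hF.2.2.2.1 i).1 k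
  obtain ⟨i0, -, -⟩ := hF.2.1
  have hg : ∀ k, g k ≠ 0 := by
    intro k h0
    apply hne i0 k
    rw [h0, eval_zero]
  have hI := Pool.Agent.W2helper7.FA.fin_CI i0 hF.1 hg hne hF.2.2.1 h5
  have hT := Set.finite_iUnion (fun i => Pool.Agent.W2helper7.FA.fin_CF hF.1 hg hne hF.2.2.1 h5 i)
  refine (hT.union hI).subset ?_
  rintro x (⟨i, hi⟩ | hi)
  · left
    rw [Set.mem_iUnion]
    exact ⟨i, hi⟩
  · right
    exact hi

end

theorem result (ι K : Type) [Fintype ι] [Fintype K] (a : ι → ℤ) (g : K → ℤ[X]) (h : ℤ[X])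
    (hF : Factors a g h) (hG : General a g) (c : ℚ) (hc : c ≠ 0) :
    (5 ≤ Fintype.card ι + (oddRoots g).ncard →
      Exceptional (fun d => ¬ OnlyTrivial a g h c d)) ∧
    Exceptional (Nonconst a g h c) :=
  ⟨fun h5 => concl2 (adm_of hF hG) (fin_of hF h5) c hc, concl1 hF hG c hc⟩

end Pool.Agent.Results.MP_10e784_ag.TwistsOfCyclicCoverings
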